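import Pool.Agent.Helper95.PW.Stmts

/-!
PW, row INT: integrability of the Coulomb terms.
-/

set_option autoImplicit false

namespace Pool.Agent.Helper95.PW

open MeasureTheory Filter

theorem INT_nr : Continuous nr := by
  unfold nr
  fun_prop

theorem INT_mem {n : ℕ} {v : Cf n → ℝ} (hv : ContDiff ℝ (⊤ : ℕ∞) v) (hc : HasCompactSupport v) :
    MemLp v 2 := by
  exact hv.continuous.memLp_of_hasCompactSupport hc

theorem INT_att (h1 : ST_HA1) {n : ℕ} {v : Cf n → ℝ} (hv : ContDiff ℝ (⊤ : ℕ∞) v)
    (hc : HasCompactSupport v) : MemLp (fun x : Cf n => att x * v x) 2 := by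
  have h : (fun x : Cf n => att x * v x) = fun x => ∑ k, 1 / nr (x k) * v x := by
    funext x
    unfold att
    rw [Finset.sum_mul]
  rw [h]
  refine memLp_finsetSum _ fun k _ => ?_
  have hm : Measurable (fun x : Cf n => 1 / nr (x k) * v x) :=
    (measurable_const.div (INT_nr.comp (continuous_apply k)).measurable).mul
      hv.continuous.measurable
  refine (memLp_two_iff_integrable_sq hm.aestronglyMeasurable).2 ?_
  have e : (fun x : Cf n => (1 / nr (x k) * v x) ^ 2) = fun x => v x ^ 2 / nr (x k) ^ 2 := by
    funext x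
    ring
  rw [e]
  exact (h1 n k v hv hc).1

theorem INT_rep (h2 : ST_HA2) {n : ℕ} {v : Cf n → ℝ} (hv : ContDiff ℝ (⊤ : ℕ∞) v)
    (hc : HasCompactSupport v) : MemLp (fun x : Cf n => rep x * v x) 2 := by
  have h : (fun x : Cf n => rep x * v x) =
      fun x => ∑ k, ∑ l, (if k < l then 1 / nr (x k - x l) else 0) * v x := by
    funext x
    unfold rep
    rw [Finset.sum_mul]
    refine Finset.sum_congr rfl fun k _ => ?_
    rw [Finset.sum_mul]
  rw [h]
  refine memLp_finsetSum _ fun k _ => memLp_finsetSum _ fun l _ => ?_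
  by_cases hkl : k < l
  · simp only [if_pos hkl]
    have hcont : Continuous fun x : Cf n => nr (x k - x l) :=
      INT_nr.comp ((continuous_apply k).sub (continuous_apply l))
    have hm : Measurable (fun x : Cf n => 1 / nr (x k - x l) * v x) :=
      (measurable_const.div hcont.measurable).mul hv.continuous.measurable
    refine (memLp_two_iff_integrable_sq hm.aestronglyMeasurable).2 ?_
    have e : (fun x : Cf n => (1 / nr (x k - x l) * v x) ^ 2) =
        fun x => v x ^ 2 / nr (x k - x l) ^ 2 := by
      funext x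
      ring
    rw [e]
    exact (h2 n k l v hkl.ne hv hc).1
  · simp only [if_neg hkl, zero_mul]
    exact MemLp.zero'

theorem st_INT (h1 : ST_HA1) (h2 : ST_HA2) : ST_INT := by
  intro n v w hv hcv hw hcw
  have a1 := INT_att h1 hv hcv
  have a2 := INT_rep h2 hv hcv
  have a3 := INT_mem hw hcw
  refine ⟨?_, ?_, a1.integrable_sq, a2.integrable_sq⟩
  · have h := a1.integrable_mul a3
    refine h.congr (Filter.Eventually.of_forall fun x => ?_)
    simp only [Pi.mul_apply]
    ring
  · have h := a2.integrable_mul a3
    refine h.congr (Filter.Eventually.of_forall fun x => ?_)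
    simp only [Pi.mul_apply]
    ring

end Pool.Agent.Helper95.PW
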